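import Pool.Agent.W747.MB.Defs
import Pool.Agent.H749R2.Hyp1

set_option autoImplicit false
open Metric MeasureTheory Set
open Pool.Agent.W747.MB

namespace Pool.Agent.W410.MB.ATT

theorem orbit {n : ℕ} (hn : 2 ≤ n) (c : ℂ) (j : ℕ) : (f n c)^[j] c = c * A n c j := by
  induction j with
  | zero => simp [A, X]
  | succ j ih =>
    rw [Function.iterate_succ_apply', ih]
    simp only [f]
    have hn0 : (n : ℂ) ≠ 0 := by
      have : n ≠ 0 := by omega
      exact_mod_cast this
    have h1 : A n c (j + 1) = 1 + c ^ (n - 1) * A n c j ^ n := by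
      have : X n c (j + 1) = n * c ^ (n - 1) * (A n c j) ^ n := rfl
      rw [A, this]
      field_simp
    rw [h1, mul_pow]
    have h2 : c ^ n = c * c ^ (n - 1) := by
      rw [← pow_succ']
      congr 1
      omega
    rw [h2]
    ring

theorem diff_iter (n : ℕ) (c : ℂ) (j : ℕ) : Differentiable ℂ (f n c)^[j] :=
  Differentiable.iterate (Pool.Agent.H749R2.Hyp.differentiable_f n c) j

theorem main : P_ATT := by
  intro n hn c j D hY hD hph hcr
  have hn0 : (0 : ℝ) < n := by
    have : 0 < n := by omega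
    exact_mod_cast this
  have hD0 : 0 < D := by linarith
  have hYd : Y n c = n * ‖c‖ ^ (n - 1) := rfl
  have hc0 : 0 < ‖c‖ := by
    rcases (norm_nonneg c).lt_or_eq with h | h
    · exact h
    · rw [hYd, ← h, zero_pow (by omega)] at hY
      norm_num at hY
  set a := ‖A n c j‖ with ha
  have ha0 : 0 ≤ a := norm_nonneg _
  set r : ℝ := ‖c‖ / (10 * n * D) with hr
  have hr0 : 0 < r := by positivity
  have hYpos : 0 < Y n c := by linarith
  -- derivative of the j+1-st iterate
  have hbd : ∀ z ∈ closedBall c r, ‖(f n c)^[j] z - c * A n c j‖ ≤ ‖c‖ / (10 * n) := by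
    intro z hz
    have h1 := (convex_closedBall c r).norm_image_sub_le_of_norm_deriv_le
      (f := (f n c)^[j]) (C := D) (fun z _ => (diff_iter n c j) z)
      (fun z hz => hph z (by simpa [dist_eq_norm] using hz)) (mem_closedBall_self hr0.le) hz
    rw [orbit hn] at h1
    refine h1.trans ?_
    have h2 : ‖z - c‖ ≤ r := by simpa [dist_eq_norm] using hz
    calc D * ‖z - c‖ ≤ D * r := by gcongr
      _ = ‖c‖ / (10 * n) := by rw [hr]; field_simp
  have hnorm : ∀ z ∈ closedBall c r, ‖(f n c)^[j] z‖ ≤ ‖c‖ * (a + 1 / (10 * n)) := by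
    intro z hz
    have h1 := hbd z hz
    calc ‖(f n c)^[j] z‖ = ‖((f n c)^[j] z - c * A n c j) + c * A n c j‖ := by ring_nf
      _ ≤ ‖(f n c)^[j] z - c * A n c j‖ + ‖c * A n c j‖ := norm_add_le _ _
      _ ≤ ‖c‖ / (10 * n) + ‖c‖ * a := by rw [norm_mul]; gcongr
      _ = _ := by ring
  have hder : ∀ z ∈ closedBall c r, ‖deriv (f n c)^[j + 1] z‖ ≤ 1 / 40 := by
    intro z hz
    have h1 : HasDerivAt (f n c)^[j + 1]
        (n * ((f n c)^[j] z) ^ (n - 1) * deriv (f n c)^[j] z) z := by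
      rw [Function.iterate_succ']
      exact (Pool.Agent.H749R2.Hyp.hasDerivAt_f n c _).comp z
        ((diff_iter n c j) z).hasDerivAt
    rw [h1.deriv, norm_mul, norm_mul, norm_pow, Complex.norm_natCast]
    have h2 : ‖deriv (f n c)^[j] z‖ ≤ D := hph z (by simpa [dist_eq_norm] using hz)
    have h3 := hnorm z hz
    calc (n : ℝ) * ‖(f n c)^[j] z‖ ^ (n - 1) * ‖deriv (f n c)^[j] z‖
        ≤ n * (‖c‖ * (a + 1 / (10 * n))) ^ (n - 1) * D := by gcongr
      _ = Y n c * (a + 1 / (10 * n)) ^ (n - 1) * D := by rw [hYd, mul_pow]; ring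
      _ ≤ 1 / (40 * D) * D := by gcongr
      _ = 1 / 40 := by field_simp
  -- |A_j| ≤ 1
  have hpow : Y n c * a ^ (n - 1) ≤ 1 / (40 * D) := by
    refine le_trans ?_ hcr
    gcongr
    have : 0 ≤ 1 / (10 * (n : ℝ)) := by positivity
    linarith
  have ha1 : a ≤ 1 := by
    by_contra hlt
    push Not at hlt
    have h1 : 1 ≤ a ^ (n - 1) := one_le_pow₀ hlt.le
    have h2 : 1 / (40 * D) ≤ 1 / 40 := by
      apply one_div_le_one_div_of_le (by norm_num); linarith
    nlinarith
  have hcen : ‖(f n c)^[j + 1] c - c‖ ≤ r / 4 := by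
    rw [Function.iterate_succ_apply', orbit hn]
    simp only [f]
    rw [add_sub_cancel_right, norm_pow, norm_mul, mul_pow]
    have h2 : ‖c‖ ^ n = ‖c‖ * ‖c‖ ^ (n - 1) := by
      rw [← pow_succ']
      congr 1
      omega
    have h3 : a ^ n = a ^ (n - 1) * a := by
      rw [← pow_succ]
      congr 1
      omega
    calc ‖c‖ ^ n * a ^ n = ‖c‖ / n * (Y n c * a ^ (n - 1)) * a := by
          rw [h2, h3, hYd]; field_simp
      _ ≤ ‖c‖ / n * (1 / (40 * D)) * 1 := by gcongr
      _ = r / 4 := by rw [hr]; field_simp; norm_num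
  have hmaps : MapsTo (f n c)^[j + 1] (closedBall c r) (closedBall c r) := by
    intro z hz
    have h1 := (convex_closedBall c r).norm_image_sub_le_of_norm_deriv_le
      (f := (f n c)^[j + 1]) (C := 1 / 40) (fun z _ => (diff_iter n c (j + 1)) z)
      hder (mem_closedBall_self hr0.le) hz
    rw [mem_closedBall, dist_eq_norm]
    have h2 : ‖z - c‖ ≤ r := by simpa [dist_eq_norm] using hz
    calc ‖(f n c)^[j + 1] z - c‖
        = ‖((f n c)^[j + 1] z - (f n c)^[j + 1] c) + ((f n c)^[j + 1] c - c)‖ := by ring_nf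
      _ ≤ ‖(f n c)^[j + 1] z - (f n c)^[j + 1] c‖ + ‖(f n c)^[j + 1] c - c‖ := norm_add_le _ _
      _ ≤ 1 / 40 * ‖z - c‖ + r / 4 := add_le_add h1 hcen
      _ ≤ 1 / 40 * r + r / 4 := by gcongr
      _ ≤ r := by linarith
  obtain ⟨z, hz, hfix, hlt⟩ := Pool.Agent.H749R2.Hyp.fixed_of_contr (g := (f n c)^[j + 1])
    (c := c) (ρ := r) (q := 1 / 40) hr0.le (by norm_num) (by norm_num) (diff_iter n c (j + 1))
    hmaps hder
  exact ⟨j + 1, z, Nat.succ_pos j, hfix, (diff_iter n c (j + 1)) z, hlt⟩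

end Pool.Agent.W410.MB.ATT
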